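import Mathlib
import Pool.Agent.Work.MP_6e2e82_co.QBlock
import Pool.Agent.Work.MP_6e2e82_co.BlockF

/-!
MP_6e2e82_co, own statement beside the proof of S09382: finite posets, not chains, in which all
average heights differ by more than `1 - γ`.
-/

set_option autoImplicit false

namespace Pool.Agent.Results.MP_6e2e82_co.GapsNearOne

open scoped Classical in
/-- the linear extensions of a finite poset `α`: the bijections `L` from `α` to
`{0, 1, .., n - 1}` with `L x < L y` whenever `x < y` -/
noncomputable def linExts (α : Type) [Fintype α] [PartialOrder α] :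
    Finset (α ≃ Fin (Fintype.card α)) :=
  Finset.univ.filter fun L => ∀ x y : α, x < y → L x < L y

/-- the height of `x` in the linear extension `L`, a number in `{1, 2, .., n}` -/
def height {α : Type} [Fintype α] (L : α ≃ Fin (Fintype.card α)) (x : α) : ℕ := (L x : ℕ) + 1

/-- the average height of `x` over all linear extensions (uniform distribution) -/
noncomputable def avgHeight {α : Type} [Fintype α] [PartialOrder α] (x : α) : ℝ :=
  (∑ L ∈ linExts α, (height L x : ℝ)) / ((linExts α).card : ℝ)

/-- For every `γ > 0` there is a finite poset, not a chain, with at least one linear extension, in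
which any two distinct elements have average heights at distance more than `1 - γ`. -/
theorem result (γ : ℝ) (hγ : 0 < γ) :
    ∃ (α : Type) (_ : Fintype α) (_ : PartialOrder α),
      (¬ ∀ a b : α, a ≤ b ∨ b ≤ a) ∧ (linExts α).Nonempty ∧
      ∀ x y : α, x ≠ y → 1 - γ < |avgHeight y - avgHeight x| := by
  have key := Pool.MP6e.blockC (Pool.MP6e.blockF Pool.MP6e.blockQ)
  by_contra hcon
  push Not at hcon
  apply key
  refine ⟨min γ 1, lt_min hγ one_pos, ?_⟩
  intro α _ _ hnc L hL
  have hLE : L = linExts α := by
    ext f
    rw [hL f]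
    simp [linExts]
  subst hLE
  by_contra hno
  push Not at hno
  have hnon : (linExts α).Nonempty := by
    by_contra he
    rw [Finset.not_nonempty_iff_eq_empty] at he
    obtain ⟨a, b, hab, hba⟩ := hnc
    have h1 := hno a b (fun h => hab h.le)
    rw [he] at h1
    simp at h1
  obtain ⟨x, y, hxy, hle⟩ := hcon α inferInstance inferInstance hnc hnon
  have hcard : ((linExts α).card : ℝ) ≠ 0 := by
    exact_mod_cast hnon.card_pos.ne'
  have havg : ∀ z : α, avgHeight z =
      (∑ f ∈ linExts α, ((f z : ℕ) : ℝ)) / ((linExts α).card : ℝ) + 1 := by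
    intro z
    unfold avgHeight height
    push_cast
    rw [Finset.sum_add_distrib, add_div, Finset.sum_const, nsmul_eq_mul, mul_one,
      div_self hcard]
  have hdiff : ∀ u v : α, avgHeight u - avgHeight v =
      (∑ f ∈ linExts α, ((f u : ℕ) : ℝ)) / ((linExts α).card : ℝ) -
        (∑ f ∈ linExts α, ((f v : ℕ) : ℝ)) / ((linExts α).card : ℝ) := by
    intro u v
    rw [havg u, havg v]; ring
  have hmin : min γ 1 ≤ γ := min_le_left _ _
  rcases le_total (avgHeight x) (avgHeight y) with h | h
  · have h0 : 0 ≤ avgHeight y - avgHeight x := sub_nonneg.2 h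
    rw [abs_of_nonneg h0] at hle
    have h1 := hno x y hxy
    rw [← hdiff y x] at h1
    have := h1 h0
    linarith
  · have h0 : 0 ≤ avgHeight x - avgHeight y := sub_nonneg.2 h
    rw [abs_sub_comm, abs_of_nonneg h0] at hle
    have h1 := hno y x (Ne.symm hxy)
    rw [← hdiff x y] at h1
    have := h1 h0
    linarith

end Pool.Agent.Results.MP_6e2e82_co.GapsNearOne
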